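import Pool.Agent.K1H92.AZS.Strict

/-!
# Thin planar domains without extremal functions for the reverse affine Zhang–Sobolev inequality

`n = p = 2`. Let `Ω ⊆ ℝ²` be open, contain the segment `(-1, 1) × {0}` and lie in
`{|x| < 1, λ y² < cos (π x / 2)}` with `λ > 2 π²` (for instance a thin rhombus or a thin ellipse with
long axis `[-1, 1] × {0}`). Then `A_{2,2}(Ω) = √π = (4 π² / L²)^{1/4}`, `L = 2` the length of the
segment, and no nonzero function in `C^1` with support in `Ω` or in `W^{1,2}_0(Ω)` attains equality.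

Proof. With `M = ∫ ∇f ⊗ ∇f` one has `𝓔_2 f = √2 (det M)^{1/4}`, so that the quotient of the two
sides is `(4 det M / (‖f‖² tr M))^{1/4}`. The function `w = cos (π x / 2) - λ y²` is a positive
supersolution of `-∂_v² w ≥ (π²/4) (1 + λ y²) w` simultaneously for all directions `v = (1, t)`, so
`‖∂_v f‖² ≥ (π²/4) ∫ (1 + λ y²) f²` for all these `v`, while `‖f‖⁴ ≤ 4 ∫ y² f² ‖∂_v f‖²` for all
`v = (s, 1)`. Minimising over `t` and `s` gives `tr M / det M < 4 / (π² ‖f‖²)`.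
-/

set_option autoImplicit false

open MeasureTheory Set Filter Topology

namespace Pool.Agent.Results.MP_9c48c1_an.NoExtremals

open Pool.Agent.K1H92.AZS

/-- `A_{2,2}(Ω) = √π`, and neither in the class of `C^1` functions with support in `Ω` nor in
`W^{1,2}_0(Ω)` there is a nonzero function with equality. -/
def NotAttained (Ω : Set (E 2)) : Prop :=
  bestA 2 2 Ω = Real.sqrt Real.pi ∧
  (∀ f : E 2 → ℝ, C1c Ω f → f ≠ 0 → bestA 2 2 Ω < ratio 2 f (gradient f)) ∧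
  ∀ (f : E 2 → ℝ) (g : E 2 → E 2), W0 2 Ω f g → ¬ f =ᵐ[volume] 0 → bestA 2 2 Ω < ratio 2 f g

theorem bounded_of_thin {lam : ℝ} (hlam : 1 ≤ lam) {Ω : Set (E 2)} (h : Thin lam Ω) :
    Bornology.IsBounded Ω := by
  rw [isBounded_iff_forall_norm_le]
  refine ⟨2, fun x hx => ?_⟩
  obtain ⟨h1, h2⟩ := h x hx
  have h3 := Real.cos_le_one (Real.pi / 2 * x 0)
  have h4 : x 0 ^ 2 < 1 := by
    rw [← sq_abs]
    nlinarith [abs_nonneg (x 0)]
  have h5 : x 1 ^ 2 < 1 := by nlinarith [sq_nonneg (x 1)]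
  rw [EuclideanSpace.norm_eq, Fin.sum_univ_two]
  simp only [Real.norm_eq_abs, sq_abs]
  rw [Real.sqrt_le_left (by norm_num)]
  linarith

theorem general {lam : ℝ} (hlam : 2 * Real.pi ^ 2 < lam) {Ω : Set (E 2)} (hΩ : IsOpen Ω)
    (hseg : ∀ x : E 2, |x 0| < 1 → x 1 = 0 → x ∈ Ω) (hthin : Thin lam Ω) : NotAttained Ω := by
  have hl1 : 1 ≤ lam := by
    have := Real.pi_gt_three
    nlinarith
  have hbd := bounded_of_thin hl1 hthin
  obtain ⟨h1, h2⟩ := main hlam hΩ hbd hseg hthin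
  refine ⟨h1, ?_, h2⟩
  intro f hf hf0
  obtain ⟨hW, hae⟩ := C1c_W0 hbd hf hf0
  exact h2 f _ hW hae

theorem cos_ge {s : ℝ} (hs : |s| ≤ 1) : 1 - |s| ≤ Real.cos (Real.pi / 2 * s) := by
  have h1 := Real.one_sub_mul_le_cos (x := Real.pi / 2 * |s|)
    (by positivity) (by nlinarith [Real.pi_pos])
  have h2 : 2 / Real.pi * (Real.pi / 2 * |s|) = |s| := by
    have := Real.pi_pos
    field_simp
  rw [h2] at h1
  have h3 : Real.cos (Real.pi / 2 * |s|) = Real.cos (Real.pi / 2 * s) := by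
    rcases abs_cases s with ⟨h, _⟩ | ⟨h, _⟩
    · rw [h]
    · rw [h, mul_neg, Real.cos_neg]
  rwa [h3] at h1

/-- **Main theorem.** (1) thin domains; (2) thin rhombi; (3) thin ellipses. -/
theorem result :
    (∀ (Ω : Set (E 2)) (lam : ℝ), 2 * Real.pi ^ 2 < lam → IsOpen Ω →
      (∀ x : E 2, |x 0| < 1 → x 1 = 0 → x ∈ Ω) →
      (∀ x ∈ Ω, |x 0| < 1 ∧ lam * x 1 ^ 2 < Real.cos (Real.pi / 2 * x 0)) → NotAttained Ω) ∧
    (∀ ε : ℝ, 0 < ε → 2 * Real.pi ^ 2 * ε ^ 2 < 1 → NotAttained {x : E 2 | |x 0| + |x 1| / ε < 1}) ∧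
    (∀ ε : ℝ, 0 < ε → 4 * Real.pi ^ 2 * ε ^ 2 < 1 →
      NotAttained {x : E 2 | x 0 ^ 2 + x 1 ^ 2 / ε ^ 2 < 1}) := by
  have hgen : ∀ (Ω : Set (E 2)) (lam : ℝ), 2 * Real.pi ^ 2 < lam → IsOpen Ω →
      (∀ x : E 2, |x 0| < 1 → x 1 = 0 → x ∈ Ω) →
      (∀ x ∈ Ω, |x 0| < 1 ∧ lam * x 1 ^ 2 < Real.cos (Real.pi / 2 * x 0)) → NotAttained Ω :=
    fun Ω lam hlam hΩ hseg hthin => general hlam hΩ hseg hthin
  refine ⟨hgen, ?_, ?_⟩
  · intro ε hε hε2
    apply hgen _ (1 / ε ^ 2)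
    · rw [lt_div_iff₀ (by positivity)]; exact hε2
    · exact isOpen_lt (by fun_prop) continuous_const
    · intro x h0 h1
      simp only [Set.mem_ofPred_eq, h1, abs_zero, zero_div, add_zero]
      exact h0
    · intro x hx
      have hx' : |x 0| + |x 1| / ε < 1 := hx
      have h1 : 0 ≤ |x 1| / ε := by positivity
      have h0 : |x 0| < 1 := by linarith
      refine ⟨h0, ?_⟩
      have h2 := cos_ge h0.le
      have h3 : 1 / ε ^ 2 * x 1 ^ 2 = (|x 1| / ε) ^ 2 := by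
        rw [div_pow, sq_abs]; ring
      rw [h3]
      have h4 : |x 1| / ε < 1 - |x 0| := by linarith
      have h5 := abs_nonneg (x 0)
      nlinarith
  · intro ε hε hε2
    apply hgen _ (1 / (2 * ε ^ 2))
    · rw [lt_div_iff₀ (by positivity)]; nlinarith
    · exact isOpen_lt (by fun_prop) continuous_const
    · intro x h0 h1
      simp only [Set.mem_ofPred_eq, h1]
      have : x 0 ^ 2 < 1 := by
        rw [← sq_abs]
        nlinarith [abs_nonneg (x 0)]
      simpa using this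
    · intro x hx
      have hx' : x 0 ^ 2 + x 1 ^ 2 / ε ^ 2 < 1 := hx
      have h1 : 0 ≤ x 1 ^ 2 / ε ^ 2 := by positivity
      have h00 : x 0 ^ 2 < 1 := by linarith
      have h0 : |x 0| < 1 := by
        rw [← sq_abs] at h00
        nlinarith [abs_nonneg (x 0)]
      refine ⟨h0, ?_⟩
      have h2 := cos_ge h0.le
      have h3 : 1 / (2 * ε ^ 2) * x 1 ^ 2 = (x 1 ^ 2 / ε ^ 2) / 2 := by
        field_simp
      rw [h3]
      have h4 : x 0 ^ 2 = |x 0| ^ 2 := (sq_abs _).symm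
      have h5 := abs_nonneg (x 0)
      nlinarith

end Pool.Agent.Results.MP_9c48c1_an.NoExtremals
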